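import Pool.Agent.H741.RS.Stm

/-!
# Basic facts on maps which preserve `J`
-/

set_option autoImplicit false
open scoped ComplexConjugate

namespace Pool.Agent.H5.RS

open Pool.Agent.H741.RS

theorem hp_self {n : ℕ} (z : V n) : hp z z = ((‖z‖ ^ 2 : ℝ) : ℂ) := by
  unfold hp
  rw [inner_self_eq_norm_sq_to_K]
  norm_cast

theorem J_self {n : ℕ} (X : ℂ × V n) : J X X = ((‖X.1‖ ^ 2 - ‖X.2‖ ^ 2 : ℝ) : ℂ) := by
  unfold J
  rw [hp_self, Complex.mul_conj, Complex.normSq_eq_norm_sq]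
  push_cast
  ring

theorem J_nondeg {n : ℕ} (X : ℂ × V n) (h : ∀ Y, J X Y = 0) : X = 0 := by
  have h1 : X.1 = 0 := by
    have := h (1, 0)
    simpa [J, hp] using this
  have h2 : X.2 = 0 := by
    have := h (0, X.2)
    have e : J X (0, X.2) = - hp X.2 X.2 := by simp [J]
    rw [e, hp_self, neg_eq_zero] at this
    have h3 : ‖X.2‖ ^ 2 = 0 := by exact_mod_cast this
    have h4 : ‖X.2‖ = 0 := by simpa using h3
    exact norm_eq_zero.1 h4
  exact Prod.ext h1 h2

theorem J_zero_left {n : ℕ} (Y : ℂ × V n) : J (0 : ℂ × V n) Y = 0 := by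
  simp [J, hp]

theorem pres_injective {n : ℕ} {A : (ℂ × V n) →ₗ[ℂ] (ℂ × V n)} (hA : PresJ A) :
    Function.Injective A := by
  rw [injective_iff_map_eq_zero]
  intro X hX
  refine J_nondeg X fun Y => ?_
  rw [← hA X Y, hX]
  exact J_zero_left _

theorem t_PRES : S_PRES := by
  intro n A hA
  refine ⟨?_, ?_⟩
  · let e : (ℂ × V n) ≃ₗ[ℂ] (ℂ × V n) := LinearEquiv.ofInjectiveEndo A (pres_injective hA)
    have he : ∀ X, e X = A X := fun X => LinearEquiv.coe_ofInjectiveEndo A (pres_injective hA) ▸ rfl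
    refine ⟨(e.symm : (ℂ × V n) →ₗ[ℂ] (ℂ × V n)), ?_, ?_, ?_⟩
    · intro X Y
      have h1 : ∀ X, A (e.symm X) = X := fun X => by rw [← he, LinearEquiv.apply_symm_apply]
      have h2 := hA (e.symm X) (e.symm Y)
      rw [h1, h1] at h2
      exact h2.symm
    · ext1 <;> ext x <;> simp [← he]
    · ext1 <;> ext x <;> simp [← he]
  · intro z hz
    have hz' : ‖z‖ < 1 := hz
    have key : ‖(A (1, z)).1‖ ^ 2 - ‖(A (1, z)).2‖ ^ 2 = 1 - ‖z‖ ^ 2 := by
      have h1 := hA (1, z) (1, z)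
      rw [J_self, J_self] at h1
      have h2 := Complex.ofReal_injective h1
      simpa using h2
    have hpos : 0 < 1 - ‖z‖ ^ 2 := by
      have := norm_nonneg z
      nlinarith
    have ha : (A (1, z)).1 ≠ 0 := by
      intro h0
      rw [h0, norm_zero] at key
      have := sq_nonneg ‖(A (1, z)).2‖
      nlinarith
    have hna : 0 < ‖(A (1, z)).1‖ := norm_pos_iff.2 ha
    have hfr : ‖frac A z‖ ^ 2 * ‖(A (1, z)).1‖ ^ 2 = ‖(A (1, z)).2‖ ^ 2 := by
      unfold frac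
      rw [norm_smul, norm_inv]
      field_simp
    have hlast : (1 - ‖frac A z‖ ^ 2) * ‖(A (1, z)).1‖ ^ 2 = 1 - ‖z‖ ^ 2 := by
      rw [sub_mul, one_mul, hfr, key]
    refine ⟨ha, ?_, ?_, hlast⟩
    · show ‖frac A z‖ < 1
      by_contra hcon
      rw [not_lt] at hcon
      have h1 : 1 - ‖frac A z‖ ^ 2 ≤ 0 := by nlinarith
      have h2 : 0 < ‖(A (1, z)).1‖ ^ 2 := by positivity
      nlinarith [mul_nonpos_of_nonpos_of_nonneg h1 h2.le]
    · refine Prod.ext ?_ ?_
      · simp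
      · show (A (1, z)).2 = (A (1, z)).1 • frac A z
        unfold frac
        rw [smul_smul, mul_inv_cancel₀ ha, one_smul]

end Pool.Agent.H5.RS
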